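import Mathlib

/-!
# Higher dimensional bounding and dominating numbers for `≠*`: the combinatorial core
-/

set_option autoImplicit false

open Cardinal Set Filter

namespace Pool.Agent.K4H92.HD

/-- Baire space. -/
abbrev BS : Type := ℕ → ℕ

/-- `x ≠* y`: `x k ≠ y k` for all but finitely many `k`. -/
def EvDiff (x y : BS) : Prop := ∀ᶠ k in atTop, x k ≠ y k

/-- The set of all `x` for which `f x ≠* g x` fails. -/
def Bad (f g : BS → BS) : Set BS := {x | ¬ EvDiff (f x) (g x)}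

/-- `𝔟(≠*_I)`: the least size of a set `A` of functions from Baire space to itself such that
there is no single `g` with `f ≠*_I g` for all `f ∈ A`. -/
noncomputable def bNe (I : Set (Set BS)) : Cardinal.{0} :=
  sInf {κ | ∃ A : Set (BS → BS), (¬ ∃ g : BS → BS, ∀ f ∈ A, Bad f g ∈ I) ∧ #A = κ}

/-- `𝔡(≠*_I)`: the least size of a set `D` of functions from Baire space to itself such that for
all `f` there is `g ∈ D` with `f ≠*_I g`. -/
noncomputable def dNe (I : Set (Set BS)) : Cardinal.{0} :=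
  sInf {κ | ∃ D : Set (BS → BS), (∀ f : BS → BS, ∃ g ∈ D, Bad f g ∈ I) ∧ #D = κ}

theorem not_evDiff_self (x : BS) : ¬ EvDiff x x := by
  intro h
  obtain ⟨k, hk⟩ := h.exists
  exact hk rfl

section core

variable {Ω T : Type} [LinearOrder Ω] [WellFoundedLT Ω]

/-- Recursion along a well-order. -/
theorem exists_rec {Y : Type} [Nonempty Y] (P : Ω → Set Y → Y → Prop)
    (h : ∀ (α : Ω) (p : Ω → Y), ∃ y, P α (p '' Iio α) y) :
    ∃ p : Ω → Y, ∀ α, P α (p '' Iio α) (p α) := by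
  classical
  have wf : WellFounded (fun a b : Ω => a < b) := wellFounded_lt
  let S : (α : Ω) → ((β : Ω) → β < α → Y) → Set Y :=
    fun α ih => {z | ∃ β, ∃ hb : β < α, z = ih β hb}
  let F : (α : Ω) → ((β : Ω) → β < α → Y) → Y := fun α ih =>
    if hh : ∃ y, P α (S α ih) y then hh.choose else Classical.arbitrary Y
  let p : Ω → Y := wf.fix F
  refine ⟨p, fun α => ?_⟩
  have h1 : p α = F α (fun β _ => p β) := wf.fix_eq F α
  have h2 : S α (fun β _ => p β) = p '' Iio α := by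
    ext z
    constructor
    · rintro ⟨β, hb, rfl⟩
      exact ⟨β, hb, rfl⟩
    · rintro ⟨β, hb, rfl⟩
      exact ⟨β, hb, rfl⟩
  have h3 : ∃ y, P α (S α (fun β _ => p β)) y := by rw [h2]; exact h α p
  have h4 : F α (fun β _ => p β) = h3.choose := dif_pos h3
  rw [h1, h4, ← h2]
  exact h3.choose_spec

/-- There is a one-to-one sequence of length `Ω` in which every member of `I` contains only a
bounded part. -/
def Lus (Ω : Type) [LinearOrder Ω] (I : Set (Set BS)) : Prop :=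
  ∃ p : Ω → BS, Function.Injective p ∧ ∀ Q ∈ I, ∃ γ, ∀ α, γ < α → p α ∉ Q

/-- Unbounded families of functions from `Ω` to `Ω`. -/
def UnbFam (F : Set (Ω → Ω)) : Prop := ∀ h : Ω → Ω, ∃ f ∈ F, ∀ γ, ∃ α, γ < α ∧ h α < f α

/-- The bounding number of `Ω`. -/
noncomputable def bb (Ω : Type) [LinearOrder Ω] : Cardinal.{0} :=
  sInf {κ | ∃ F : Set (Ω → Ω), UnbFam F ∧ #F = κ}

omit [WellFoundedLT Ω] in
theorem bb_le {F : Set (Ω → Ω)} (h : UnbFam F) : bb Ω ≤ #F := csInf_le' ⟨F, h, rfl⟩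

omit [WellFoundedLT Ω] in
theorem bNe_le (ρ : BS ≃ Ω) (e : Ω → T → Ω) (he : ∀ a b, b < a → ∃ t, e a t = b)
    (hT : ∀ b : T → Ω, ∃ a, ∀ t, b t < a) (hne : ∃ F : Set (Ω → Ω), UnbFam F)
    (h1 : #T ≤ bb Ω) (h2 : ℵ₀ ≤ bb Ω) (I : Set (Set BS)) (hI : Lus Ω I) : bNe I ≤ bb Ω := by
  classical
  obtain ⟨p, hp, hpI⟩ := hI
  have hmem : bb Ω ∈ {κ | ∃ F : Set (Ω → Ω), UnbFam F ∧ #F = κ} :=
    csInf_mem (by obtain ⟨F, hF⟩ := hne; exact ⟨_, F, hF, rfl⟩)
  obtain ⟨F, hF, hFc⟩ := hmem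
  let ex : F × T → (BS → BS) := fun u x =>
    if h : ∃ α, p α = x then ρ.symm (e (u.1.1 h.choose) u.2) else x
  have hex : ∀ (u : F × T) (α : Ω), ex u (p α) = ρ.symm (e (u.1.1 α) u.2) := by
    intro u α
    have h : ∃ β, p β = p α := ⟨α, rfl⟩
    have h3 : h.choose = α := hp h.choose_spec
    simp only [ex, dif_pos h, h3]
  have hcard : #(range ex) ≤ bb Ω := by
    refine mk_range_le.trans ?_
    rw [mk_prod, lift_id, lift_id, hFc]
    exact (mul_le_mul_right (a := bb Ω) h1).trans (mul_eq_self h2).le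
  refine le_trans (csInf_le' ⟨range ex, ?_, rfl⟩) hcard
  rintro ⟨g, hg⟩
  obtain ⟨f, hf, hfu⟩ := hF (fun α => ρ (g (p α)))
  -- some `t` works unboundedly often
  have key : ∃ t : T, ∀ γ, ∃ α, γ < α ∧ e (f α) t = ρ (g (p α)) := by
    by_contra hcon
    push Not at hcon
    choose b hb using hcon
    obtain ⟨a, ha⟩ := hT b
    obtain ⟨α, hα, hlt⟩ := hfu a
    obtain ⟨t, ht⟩ := he _ _ hlt
    exact hb t α ((ha t).trans hα) ht
  obtain ⟨t, ht⟩ := key
  obtain ⟨γ, hγ⟩ := hpI _ (hg (ex (⟨f, hf⟩, t)) ⟨_, rfl⟩)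
  obtain ⟨α, hα, hαt⟩ := ht γ
  apply hγ α hα
  have : ex (⟨f, hf⟩, t) (p α) = g (p α) := by
    rw [hex]
    simp [hαt]
  change ¬ EvDiff _ _
  rw [this]
  exact not_evDiff_self _

theorem le_dNe (ρ : BS ≃ Ω) (e : Ω → T → Ω) (he : ∀ a b, b < a → ∃ t, e a t = b)
    (hT : ∀ b : T → Ω, ∃ a, ∀ t, b t < a)
    (hΩ : ∀ (i : Ω) (f : Ω → Ω), ∃ a, ∀ j < i, f j < a)
    (hS : ∀ a : Ω, ∃ b, a < b)
    (col : Ω → T) (hcol : ∀ t a, ∃ b, a < b ∧ col b = t)
    (J : Set (Set BS)) (hJ : Lus Ω J) (hJ0 : ∅ ∈ J) : bb Ω ≤ dNe J := by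
  classical
  obtain ⟨q, hq, hqJ⟩ := hJ
  apply le_csInf
  · refine ⟨_, univ, fun f => ⟨fun x k => f x k + 1, mem_univ _, ?_⟩, rfl⟩
    have : Bad f (fun x k => f x k + 1) = ∅ := by
      ext x
      simp [Bad, EvDiff]
    rw [this]
    exact hJ0
  · rintro _ ⟨D, hD, rfl⟩
    by_contra hlt
    rw [not_le] at hlt
    -- every family indexed by `D` is bounded
    have hbd : ∀ G : D → Ω → Ω, ∃ h : Ω → Ω, ∀ g, ∃ γ, ∀ α, γ < α → G g α < h α := by
      intro G
      have h1 : ¬ UnbFam (range G) := fun h => by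
        have := (bb_le h).trans mk_range_le
        exact absurd this (not_le.2 hlt)
      unfold UnbFam at h1
      push Not at h1
      obtain ⟨h, hh⟩ := h1
      choose s hs using hS
      refine ⟨fun α => s (h α), fun g => ?_⟩
      obtain ⟨γ, hγ⟩ := hh (G g) ⟨g, rfl⟩
      exact ⟨γ, fun α hα => (hγ α hα).trans_lt (hs _)⟩
    obtain ⟨h, hh⟩ := hbd (fun g α => ρ (g.1 (q α)))
    choose γ hγ using hh
    have hn : ∀ g : D, ∃ t : T, ∀ b, ∃ α, b < α ∧ e (h α) t = ρ (g.1 (q α)) := by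
      intro g
      by_contra hcon
      push Not at hcon
      choose b hb using hcon
      obtain ⟨a, ha⟩ := hT b
      obtain ⟨α, hα⟩ := hS (max a (γ g))
      obtain ⟨t, ht⟩ := he _ _ (hγ g α ((le_max_right _ _).trans_lt hα))
      exact hb t α ((ha t).trans ((le_max_left _ _).trans_lt hα)) ht
    choose n hn using hn
    choose nx hnx1 hnx2 using hn
    obtain ⟨k, hk⟩ := hbd nx
    choose δ hδ using hk
    -- the sequence `c`
    have : Nonempty Ω := ⟨ρ 0⟩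
    obtain ⟨c, hc⟩ := exists_rec (Ω := Ω) (Y := Ω)
      (fun j S y => j < y ∧ ∀ z ∈ S, k z < y) (by
        intro j p
        obtain ⟨a, ha⟩ := hΩ j (fun i => k (p i))
        obtain ⟨b, hb⟩ := hS (max a j)
        refine ⟨b, (le_max_right _ _).trans_lt hb, ?_⟩
        rintro z ⟨i, hi, rfl⟩
        exact (ha i hi).trans ((le_max_left _ _).trans_lt hb))
    have hc2 : ∀ i j, i < j → k (c i) < c j := fun i j hij => (hc j).2 _ ⟨i, hij, rfl⟩
    have huniq : ∀ i j β, c i < β → β < k (c i) → c j < β → β < k (c j) → i = j := by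
      intro i j β h1 h2 h3 h4
      rcases lt_trichotomy i j with h5 | h5 | h5
      · exact absurd (h2.trans (hc2 i j h5)) (not_lt.2 h3.le)
      · exact h5
      · exact absurd (h4.trans (hc2 j i h5)) (not_lt.2 h1.le)
    let f : BS → BS := fun x =>
      if hx : ∃ u : Ω × Ω, q u.1 = x ∧ c u.2 < u.1 ∧ u.1 < k (c u.2) then
        ρ.symm (e (h hx.choose.1) (col hx.choose.2)) else x
    have hf : ∀ β j, c j < β → β < k (c j) → f (q β) = ρ.symm (e (h β) (col j)) := by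
      intro β j h1 h2
      have hx : ∃ u : Ω × Ω, q u.1 = q β ∧ c u.2 < u.1 ∧ u.1 < k (c u.2) := ⟨(β, j), rfl, h1, h2⟩
      have h3 := hx.choose_spec
      have h4 : hx.choose.1 = β := hq h3.1
      have h5 : hx.choose.2 = j := by
        apply huniq _ _ β _ _ h1 h2
        · exact h3.2.1.trans_eq h4
        · exact h4.symm.trans_lt h3.2.2
      simp only [f, dif_pos hx]
      rw [h4, h5]
    obtain ⟨g, hg, hbad⟩ := hD f
    obtain ⟨γ', hγ'⟩ := hqJ _ hbad
    obtain ⟨j, hj, hcj⟩ := hcol (n ⟨g, hg⟩) (max γ' (δ ⟨g, hg⟩))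
    have h1 : j < c j := (hc j).1
    have h2 : c j < nx ⟨g, hg⟩ (c j) := hnx1 _ _
    have h3 : nx ⟨g, hg⟩ (c j) < k (c j) :=
      hδ ⟨g, hg⟩ (c j) (((le_max_right _ _).trans_lt hj).trans h1)
    have h4 := hf _ j h2 h3
    have h5 : e (h (nx ⟨g, hg⟩ (c j))) (n ⟨g, hg⟩) = ρ (g (q (nx ⟨g, hg⟩ (c j)))) := hnx2 _ _
    apply hγ' (nx ⟨g, hg⟩ (c j)) ((((le_max_left _ _).trans_lt hj).trans h1).trans h2)
    change ¬ EvDiff _ _
    rw [h4, hcj, h5, Equiv.symm_apply_apply]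
    exact not_evDiff_self _

end core

end Pool.Agent.K4H92.HD
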