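import Pool.Agent.K4H92.HD.Main

/-!
# Higher dimensional bounding and dominating numbers for `≠*`: the three ideals
-/

set_option autoImplicit false

open Cardinal Filter MeasureTheory Topology

namespace Pool.Agent.K4H92.HD

/-- Proper `σ`-ideals which contain all points and have a base of Borel sets. -/
structure Good (I : Set (Set BS)) : Prop where
  empty : ∅ ∈ I
  single : ∀ x : BS, {x} ∈ I
  mono : ∀ Q ∈ I, ∀ R : Set BS, R ⊆ Q → R ∈ I
  union : ∀ Q : ℕ → Set BS, (∀ n, Q n ∈ I) → (⋃ n, Q n) ∈ I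
  proper : (Set.univ : Set BS) ∉ I
  base : ∀ Q ∈ I, ∃ S ∈ I, MeasurableSet S ∧ Q ⊆ S

theorem interior_compact {C : Set BS} (hC : IsCompact C) : interior C = ∅ := by
  classical
  by_contra hne
  obtain ⟨x, hx⟩ := Set.nonempty_iff_ne_empty.2 hne
  obtain ⟨I, u, hu, hsub⟩ := isOpen_pi_iff.1 isOpen_interior x hx
  obtain ⟨n, hn⟩ := Infinite.exists_notMem_finset I
  have h1 : ∀ m, Function.update x n m ∈ C := by
    intro m
    apply interior_subset
    apply hsub
    intro i hi
    have : i ≠ n := fun h => hn (h ▸ hi)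
    rw [Function.update_of_ne this]
    exact (hu i hi).2
  have h2 : IsCompact ((fun y : BS => y n) '' C) := hC.image (continuous_apply n)
  have h3 : ((fun y : BS => y n) '' C).Finite := isCompact_iff_finite.1 h2
  have h4 : (Set.univ : Set ℕ) ⊆ (fun y : BS => y n) '' C := fun m _ => ⟨_, h1 m, by simp⟩
  exact Set.infinite_univ (h3.subset h4)

theorem meagre_of_compact {C : Set BS} (hC : IsCompact C) : IsMeagre C := by
  apply IsNowhereDense.isMeagre
  rw [IsNowhereDense, hC.isClosed.closure_eq]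
  exact interior_compact hC

theorem meagre_of_sigmaCompact {C : Set BS} (hC : IsSigmaCompact C) : IsMeagre C := by
  obtain ⟨K, hK, rfl⟩ := hC
  exact isMeagre_iUnion fun n => meagre_of_compact (hK n)

theorem not_meagre_univ : ¬ IsMeagre (Set.univ : Set BS) :=
  not_isMeagre_of_isOpen isOpen_univ Set.univ_nonempty

theorem good_meagre : Good meagreSets where
  empty := meagre_of_compact isCompact_empty
  single x := meagre_of_compact isCompact_singleton
  mono Q hQ R hR := IsMeagre.mono hR hQ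
  union Q hQ := isMeagre_iUnion hQ
  proper := not_meagre_univ
  base Q hQ := by
    obtain ⟨t, ht, h1, h2⟩ := mem_residual.1 hQ
    refine ⟨tᶜ, ?_, h1.measurableSet.compl, Set.subset_compl_comm.1 ht⟩
    change (tᶜ)ᶜ ∈ residual BS
    rw [compl_compl]
    exact residual_of_dense_Gδ h1 h2

theorem good_sigmaCompact : Good sigmaCompactSets where
  empty := ⟨∅, isSigmaCompact_empty, Set.Subset.rfl⟩
  single x := ⟨{x}, isCompact_singleton.isSigmaCompact, Set.Subset.rfl⟩
  mono Q hQ R hR := by
    obtain ⟨S, hS, h⟩ := hQ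
    exact ⟨S, hS, hR.trans h⟩
  union Q hQ := by
    choose S hS h using hQ
    exact ⟨⋃ n, S n, isSigmaCompact_iUnion _ hS, Set.iUnion_mono h⟩
  proper := by
    rintro ⟨S, hS, h⟩
    rw [Set.univ_subset_iff] at h
    subst h
    exact not_meagre_univ (meagre_of_sigmaCompact hS)
  base Q hQ := by
    obtain ⟨S, hS, h⟩ := hQ
    refine ⟨S, ⟨S, hS, Set.Subset.rfl⟩, ?_, h⟩
    obtain ⟨K, hK, rfl⟩ := hS
    exact MeasurableSet.iUnion fun n => (hK n).measurableSet

theorem good_null (μ : Measure BS) [IsProbabilityMeasure μ] (h0 : ∀ x : BS, μ {x} = 0) :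
    Good (nullSets μ) where
  empty := measure_empty
  single x := h0 x
  mono Q hQ R hR := measure_mono_null hR hQ
  union Q hQ := measure_iUnion_null hQ
  proper := by
    intro h
    have h2 : μ Set.univ = 0 := h
    rw [measure_univ] at h2
    exact one_ne_zero h2
  base Q hQ := ⟨toMeasurable μ Q, (measure_toMeasurable Q).trans hQ,
    measurableSet_toMeasurable μ Q, subset_toMeasurable μ Q⟩

theorem le_cov_of_CH (h : (𝔠 : Cardinal.{0}) = ℵ₁) {I : Set (Set BS)} (hI : Good I) : 𝔠 ≤ cov I := by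
  apply le_csInf
  · refine ⟨_, Set.range (fun x : BS => ({x} : Set BS)), ?_, ?_, rfl⟩
    · rintro _ ⟨x, rfl⟩
      exact hI.single x
    · apply Set.eq_univ_of_forall
      intro x
      exact ⟨{x}, ⟨x, rfl⟩, rfl⟩
  · rintro _ ⟨𝒬, h1, h2, rfl⟩
    by_contra hlt
    rw [not_le, h, ← succ_aleph0, Order.lt_succ_iff, Cardinal.le_aleph0_iff_set_countable] at hlt
    apply hI.proper
    rw [← h2]
    rcases 𝒬.eq_empty_or_nonempty with h3 | h3
    · rw [h3, Set.sUnion_empty]
      exact hI.empty
    · obtain ⟨f, rfl⟩ := hlt.exists_eq_range h3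
      rw [Set.sUnion_range]
      exact hI.union f fun n => h1 ⟨n, rfl⟩

theorem lus_good {τ : Cardinal.{0}} (hc : 𝔠 = Order.succ τ) {I : Set (Set BS)} (hI : Good I)
    (hcov : 𝔠 ≤ cov I) : Lus Om I := by
  obtain ⟨B, hB1, hB2⟩ := base_of I hI.empty hI.base
  exact lus_of hc I hI.single ⟨B, fun a => (hB1 a).1, hB2⟩ hcov

theorem mk_compl {I : Set (Set BS)} (hI : Good I) {S : Set BS} (hS : S ∈ I)
    (hm : MeasurableSet S) : #(Sᶜ : Set BS) = 𝔠 := by
  have h1 : ¬ (Sᶜ : Set BS).Countable := by
    intro h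
    apply hI.proper
    have h2 : (Sᶜ : Set BS) ∈ I := by
      rcases (Sᶜ : Set BS).eq_empty_or_nonempty with h3 | h3
      · rw [h3]; exact hI.empty
      · obtain ⟨f, hf⟩ := h.exists_eq_range h3
        rw [hf]
        have : Set.range f = ⋃ n, {f n} := by
          ext x; simp [eq_comm]
        rw [this]
        exact hI.union _ fun n => hI.single _
    have h4 : (Set.univ : Set BS) = ⋃ n : ℕ, (if n = 0 then S else Sᶜ) := by
      symm
      apply Set.eq_univ_of_forall
      intro x
      by_cases hx : x ∈ S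
      · exact Set.mem_iUnion.2 ⟨0, by simpa using hx⟩
      · exact Set.mem_iUnion.2 ⟨1, by simpa using hx⟩
    rw [h4]
    apply hI.union
    intro n
    split_ifs
    · exact hS
    · exact h2
  have h5 : StandardBorelSpace (Sᶜ : Set BS) := hm.compl.standardBorel
  have h6 : ¬ Countable (Sᶜ : Set BS) := h1
  have h7 := PolishSpace.measurableEquivNatBoolOfNotCountable h6
  rw [Cardinal.mk_congr h7.toEquiv]
  simp

theorem dNe_empty_le {J : Set (Set BS)} (hJ : Good J) : dNe {∅} ≤ dNe J := by
  classical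
  obtain ⟨B, hB1, hB2⟩ := base_of J hJ.empty hJ.base
  obtain ⟨ρ⟩ := Cardinal.eq.1 (mk_BS.trans mk_Om.symm)
  have heq : Nonempty (Om ≃ Om × Om) := by
    rw [← Cardinal.eq, mk_prod, lift_id, mk_Om, mul_eq_self aleph0_le_continuum]
  obtain ⟨π⟩ := heq
  obtain ⟨p, hp⟩ := exists_rec (Ω := Om) (Y := BS)
    (fun α S y => y ∉ S ∧ y ∉ B (π α).1) (by
      intro α p
      by_contra hcon
      push Not at hcon
      have h1 : (B (π α).1)ᶜ ⊆ p '' Set.Iio α := by
        intro y hy
        by_contra hy2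
        exact hy (hcon y hy2)
      have h2 := (mk_le_mk_of_subset h1).trans mk_image_le
      rw [mk_compl hJ (hB1 _).1 (hB1 _).2] at h2
      exact absurd (mk_Iio α) (not_lt.2 h2))
  have hinj : Function.Injective p := by
    intro a b hab
    rcases lt_trichotomy a b with h | h | h
    · exact absurd ⟨a, h, hab⟩ (hp b).1
    · exact h
    · exact absurd ⟨b, h, hab.symm⟩ (hp a).1
  apply le_csInf
  · refine ⟨_, Set.univ, fun f => ⟨fun x k => f x k + 1, Set.mem_univ _, ?_⟩, rfl⟩
    have : Bad f (fun x k => f x k + 1) = ∅ := by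
      ext x
      simp [Bad, EvDiff]
    rw [this]
    exact hJ.empty
  · rintro _ ⟨D, hD, rfl⟩
    -- `D` has at least `𝔠` elements
    have hDc : 𝔠 ≤ #D := by
      by_contra hlt
      rw [not_le] at hlt
      have h1 : Nonempty (D ↪ Om) := by
        rw [← Cardinal.le_def, mk_Om]; exact hlt.le
      obtain ⟨em⟩ := h1
      obtain ⟨g, hg, hbad⟩ := hD (fun w => if h : ∃ g : D, ∃ y : Om, p (π.symm (y, em g)) = w then
        h.choose.1 w else w)
      obtain ⟨y, hy⟩ := hB2 _ hbad
      have h2 : p (π.symm (y, em ⟨g, hg⟩)) ∉ B y := by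
        have := (hp (π.symm (y, em ⟨g, hg⟩))).2
        simpa using this
      apply h2
      apply hy
      have h3 : ∃ g' : D, ∃ y' : Om, p (π.symm (y', em g')) = p (π.symm (y, em ⟨g, hg⟩)) :=
        ⟨⟨g, hg⟩, y, rfl⟩
      have h4 : h3.choose = ⟨g, hg⟩ := by
        obtain ⟨y', hy'⟩ := h3.choose_spec
        have h5 := π.symm.injective (hinj hy')
        exact em.injective (Prod.ext_iff.1 h5).2
      change ¬ EvDiff _ _
      simp only [dif_pos h3, h4]
      exact not_evDiff_self _
    let G : D × Om → (BS → BS) := fun u x => u.1.1 (p (π.symm (u.2, ρ x)))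
    have hcard : #(Set.range G) ≤ #D := by
      refine mk_range_le.trans ?_
      rw [mk_prod, lift_id, lift_id, mk_Om]
      exact (mul_le_mul_right (a := #D) hDc).trans (mul_eq_self (aleph0_le_continuum.trans hDc)).le
    refine le_trans (csInf_le' ⟨Set.range G, ?_, rfl⟩) hcard
    intro f
    obtain ⟨g, hg, hbad⟩ := hD (fun w => if h : ∃ α, p α = w then f (ρ.symm (π h.choose).2) else w)
    obtain ⟨y, hy⟩ := hB2 _ hbad
    refine ⟨G (⟨g, hg⟩, y), ⟨_, rfl⟩, ?_⟩
    rw [Set.mem_singleton_iff, Set.eq_empty_iff_forall_notMem]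
    intro x hx
    have h2 : p (π.symm (y, ρ x)) ∉ B y := by
      have := (hp (π.symm (y, ρ x))).2
      simpa using this
    apply h2
    apply hy
    have h3 : ∃ α, p α = p (π.symm (y, ρ x)) := ⟨_, rfl⟩
    have h4 : h3.choose = π.symm (y, ρ x) := hinj h3.choose_spec
    change ¬ EvDiff _ _
    simp only [dif_pos h3, h4]
    simpa [G, Bad] using hx

end Pool.Agent.K4H92.HD
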