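import Pool.Agent.K4H92.HD.Ideals

/-!
# Higher dimensional bounding and dominating numbers for `≠*`: Luzin sets
-/

set_option autoImplicit false

open Cardinal Filter MeasureTheory Topology

namespace Pool.Agent.K4H92.HD

theorem le_mk_of_dominating {D : Set (BS → BS)} (hD : ∀ f : BS → BS, ∃ g ∈ D, Bad f g ∈ ({∅} : Set (Set BS))) :
    𝔠 ≤ #D := by
  classical
  by_contra hlt
  rw [not_le, ← mk_BS] at hlt
  obtain ⟨em⟩ : Nonempty (D ↪ BS) := by rw [← Cardinal.le_def]; exact hlt.le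
  obtain ⟨g, hg, hbad⟩ := hD (fun x => if h : ∃ g : D, em g = x then h.choose.1 x else x)
  rw [Set.mem_singleton_iff, Set.eq_empty_iff_forall_notMem] at hbad
  apply hbad (em ⟨g, hg⟩)
  have h3 : ∃ g' : D, em g' = em ⟨g, hg⟩ := ⟨⟨g, hg⟩, rfl⟩
  have h4 : h3.choose = ⟨g, hg⟩ := em.injective h3.choose_spec
  change ¬ EvDiff _ _
  simp only [dif_pos h3, h4]
  exact not_evDiff_self _

theorem luzin_le {τ : Cardinal.{0}} (hτ : ℵ₀ ≤ τ) (φ : (Order.succ τ).ord.ToType → BS)
    (hφ : ∀ t : BS, ∃ a, ∀ η, EvDiff (φ η) t → η < a) (hτc : Order.succ τ ≤ 𝔠)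
    {I : Set (Set BS)} (hcov : Order.succ τ ≤ cov I) : bNe I ≤ dNe {∅} := by
  classical
  let Ω : Type := (Order.succ τ).ord.ToType
  have hΩc : #Ω = Order.succ τ := by simp [Ω]
  obtain ⟨T, hTc⟩ : ∃ T : Type, #T = τ := ⟨τ.out, mk_out τ⟩
  have hIio : ∀ a : Ω, #(Set.Iio a) ≤ #T := by
    intro a
    have h1 := mk_Iio_lt a (by simp [Ω])
    have h2 : #(Set.Iio a) < Order.succ τ := h1.trans_eq hΩc
    exact (Order.lt_succ_iff.1 h2).trans hTc.ge
  choose β hβ using hφ
  have em : ∀ a : Ω, Set.Iio a ↪ T := fun a => ((Cardinal.le_def _ _).1 (hIio a)).some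
  let e : Ω → T → Ω := fun a t => if h : ∃ b : Set.Iio a, em a b = t then h.choose else a
  have he : ∀ a b, b < a → ∃ t, e a t = b := by
    intro a b hb
    refine ⟨em a ⟨b, hb⟩, ?_⟩
    have h : ∃ b' : Set.Iio a, em a b' = em a ⟨b, hb⟩ := ⟨_, rfl⟩
    have h2 : h.choose = ⟨b, hb⟩ := (em a).injective h.choose_spec
    simp only [e, dif_pos h, h2]
  apply le_csInf
  · refine ⟨_, Set.univ, fun f => ⟨fun x k => f x k + 1, Set.mem_univ _, ?_⟩, rfl⟩
    rw [Set.mem_singleton_iff]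
    ext x
    simp [Bad, EvDiff]
  · rintro _ ⟨D, hD, rfl⟩
    have hDc := le_mk_of_dominating hD
    have hτD : τ ≤ #D := (Order.le_succ τ).trans (hτc.trans hDc)
    let G : D × T → (BS → BS) := fun u x => φ (e (β (u.1.1 x)) u.2)
    have hcard : #(Set.range G) ≤ #D := by
      refine mk_range_le.trans ?_
      rw [mk_prod, lift_id, lift_id, hTc]
      exact (mul_le_mul_right (a := #D) hτD).trans (mul_eq_self (hτ.trans hτD)).le
    refine le_trans (csInf_le' ⟨Set.range G, ?_, rfl⟩) hcard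
    rintro ⟨g₀, hg₀⟩
    obtain ⟨g, hg, hbad⟩ := hD (fun x => φ (β (g₀ x)))
    rw [Set.mem_singleton_iff, Set.eq_empty_iff_forall_notMem] at hbad
    have h1 : ∀ x, β (g₀ x) < β (g x) := fun x => hβ (g x) _ (by
      have := hbad x
      simpa [Bad] using this)
    have h2 : cov I ≤ τ := by
      refine le_trans (csInf_le' ⟨Set.range (fun t : T => Bad (G (⟨g, hg⟩, t)) g₀), ?_, ?_, rfl⟩)
        (mk_range_le.trans hTc.le)
      · rintro _ ⟨t, rfl⟩
        exact hg₀ _ ⟨_, rfl⟩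
      · apply Set.eq_univ_of_forall
        intro x
        obtain ⟨t, ht⟩ := he _ _ (h1 x)
        refine ⟨_, ⟨t, rfl⟩, ?_⟩
        change ¬ EvDiff _ _
        intro h3
        have h4 : G (⟨g, hg⟩, t) x = φ (β (g₀ x)) := by simp only [G, ht]
        rw [h4] at h3
        exact lt_irrefl _ (hβ (g₀ x) _ h3)
    exact absurd (hcov.trans h2) (not_le.2 (Order.lt_succ τ))

theorem aleph_one_le_cov {I : Set (Set BS)} (hI : Good I) : ℵ₁ ≤ cov I := by
  apply le_csInf
  · refine ⟨_, Set.range (fun x : BS => ({x} : Set BS)), ?_, ?_, rfl⟩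
    · rintro _ ⟨x, rfl⟩
      exact hI.single x
    · apply Set.eq_univ_of_forall
      intro x
      exact ⟨{x}, ⟨x, rfl⟩, rfl⟩
  · rintro _ ⟨𝒬, h1, h2, rfl⟩
    by_contra hlt
    rw [not_le, ← succ_aleph0, Order.lt_succ_iff, Cardinal.le_aleph0_iff_set_countable] at hlt
    apply hI.proper
    rw [← h2]
    rcases 𝒬.eq_empty_or_nonempty with h3 | h3
    · rw [h3, Set.sUnion_empty]
      exact hI.empty
    · obtain ⟨f, rfl⟩ := hlt.exists_eq_range h3
      rw [Set.sUnion_range]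
      exact hI.union f fun n => h1 ⟨n, rfl⟩

/-- The set of the `s` with `s ≠* t` is meagre. -/
theorem meagre_evDiff (t : BS) : IsMeagre {s : BS | EvDiff s t} := by
  have h : {s : BS | EvDiff s t} = ⋃ N : ℕ, {s : BS | ∀ k, N ≤ k → s k ≠ t k} := by
    ext s
    simp [EvDiff, eventually_atTop]
  rw [h]
  apply isMeagre_iUnion
  intro N
  apply IsNowhereDense.isMeagre
  have hcl : IsClosed {s : BS | ∀ k, N ≤ k → s k ≠ t k} := by
    have h2 : {s : BS | ∀ k, N ≤ k → s k ≠ t k} =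
        ⋂ k : ℕ, ⋂ _ : N ≤ k, (fun s : BS => s k) ⁻¹' ({t k}ᶜ : Set ℕ) := by
      ext s
      simp
    rw [h2]
    refine isClosed_iInter fun k => isClosed_iInter fun _ => ?_
    have h3 : Continuous (fun s : BS => s k) := continuous_apply k
    exact IsClosed.preimage h3 (isClosed_discrete _)
  rw [IsNowhereDense, hcl.closure_eq]
  classical
  by_contra hne
  obtain ⟨x, hx⟩ := Set.nonempty_iff_ne_empty.2 hne
  obtain ⟨I, u, hu, hsub⟩ := isOpen_pi_iff.1 isOpen_interior x hx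
  obtain ⟨n, hn⟩ := (I ∪ Finset.range N).exists_notMem
  have hn1 : n ∉ I := fun h => hn (Finset.mem_union_left _ h)
  have hn2 : N ≤ n := by
    by_contra h
    exact hn (Finset.mem_union_right _ (Finset.mem_range.2 (not_le.1 h)))
  have h1 : Function.update x n (t n) ∈ {s : BS | ∀ k, N ≤ k → s k ≠ t k} := by
    apply interior_subset
    apply hsub
    intro i hi
    have : i ≠ n := fun h => hn1 (h ▸ hi)
    rw [Function.update_of_ne this]
    exact (hu i hi).2
  exact h1 n hn2 (by simp)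

/-- A nonmeagre set of size at most `ℵ₁` gives a sequence of length `ω₁` such that each real is
infinitely often equal to all but countably many of its members. -/
theorem exists_luzin_seq (S : Set BS) (hS : #S ≤ ℵ₁) (hm : ¬ IsMeagre S) :
    ∃ φ : (Order.succ ℵ₀ : Cardinal.{0}).ord.ToType → BS, ∀ t : BS, ∃ a, ∀ η,
      EvDiff (φ η) t → η < a := by
  classical
  let Ω : Type := (Order.succ ℵ₀ : Cardinal.{0}).ord.ToType
  have hΩc : #Ω = Order.succ ℵ₀ := by simp [Ω]
  have hcount : ∀ a : Ω, (Set.Iic a).Countable := by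
    intro a
    have h1 := mk_Iio_lt a (by simp [Ω])
    have h2 : #(Set.Iio a) < Order.succ ℵ₀ := h1.trans_eq hΩc
    have h3 : (Set.Iio a).Countable := Cardinal.le_aleph0_iff_set_countable.1 (Order.lt_succ_iff.1 h2)
    have h4 : Set.Iic a = insert a (Set.Iio a) := by
      ext b
      simp [le_iff_eq_or_lt]
    rw [h4]
    exact h3.insert a
  have hE : ∀ a : Ω, ∃ E : ℕ → Ω, Set.Iic a = Set.range E := fun a =>
    (hcount a).exists_eq_range ⟨a, Set.mem_Iic.2 le_rfl⟩
  choose E hE using hE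
  obtain ⟨em⟩ : Nonempty (S ↪ Ω) := by
    rw [← Cardinal.le_def, hΩc, succ_aleph0]
    exact hS
  -- enumeration of `S`
  let s : Ω → BS := fun η => if h : ∃ x : S, em x = η then h.choose.1 else 0
  have hs : ∀ x ∈ S, ∃ η, s η = x := by
    intro x hx
    refine ⟨em ⟨x, hx⟩, ?_⟩
    have h : ∃ y : S, em y = em ⟨x, hx⟩ := ⟨_, rfl⟩
    have h2 : h.choose = ⟨x, hx⟩ := em.injective h.choose_spec
    simp only [s, dif_pos h, h2]
  let code : BS → BS := fun t n =>
    Encodable.encode ((List.range (n + 1)).map (fun i => t (Nat.pair n i)))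
  let φ : Ω → BS := fun b k =>
    ((Encodable.decode (α := List ℕ) (s (E b k.unpair.2) k.unpair.1)).getD []).getD k.unpair.2 0
  refine ⟨φ, fun t => ?_⟩
  obtain ⟨x, hx, hxt⟩ : ∃ x ∈ S, ¬ EvDiff x (code t) := by
    by_contra hcon
    push Not at hcon
    exact hm ((meagre_evDiff (code t)).mono hcon)
  obtain ⟨η, rfl⟩ := hs x hx
  refine ⟨η, fun b hb => ?_⟩
  by_contra hlt
  rw [not_lt] at hlt
  have h1 : η ∈ Set.range (E b) := by
    rw [← hE b]; exact hlt
  obtain ⟨i, rfl⟩ := h1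
  apply hxt
  -- from `EvDiff (φ b) t`
  obtain ⟨N, hN⟩ := eventually_atTop.1 hb
  refine eventually_atTop.2 ⟨max N i, fun n hn heq => ?_⟩
  have h2 : N ≤ Nat.pair n i := ((le_max_left _ _).trans hn).trans (Nat.left_le_pair n i)
  have h3 : i < n + 1 := Nat.lt_succ_of_le ((le_max_right _ _).trans hn)
  apply hN _ h2
  simp only [φ, Nat.unpair_pair]
  rw [heq]
  simp only [code, Encodable.encodek, Option.getD_some]
  rw [List.getD_eq_getElem _ _ (by simpa using h3)]
  simp

end Pool.Agent.K4H92.HD
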