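import Pool.Agent.K4H92.HD.Core

/-!
# Higher dimensional bounding and dominating numbers for `≠*`: cardinals and ideals
-/

set_option autoImplicit false

open Cardinal Set Filter MeasureTheory Topology

namespace Pool.Agent.K4H92.HD

/-- `cov(I)`: the least size of a family of members of `I` which covers Baire space. -/
noncomputable def cov (I : Set (Set BS)) : Cardinal.{0} :=
  sInf {κ | ∃ 𝒬 : Set (Set BS), 𝒬 ⊆ I ∧ ⋃₀ 𝒬 = Set.univ ∧ #𝒬 = κ}

/-- The `μ`-null sets. -/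
def nullSets (μ : Measure BS) : Set (Set BS) := {Q | μ Q = 0}

/-- The meagre sets. -/
def meagreSets : Set (Set BS) := {Q | IsMeagre Q}

/-- The ideal of the subsets of the `σ`-compact sets. -/
def sigmaCompactSets : Set (Set BS) := {Q | ∃ S : Set BS, IsSigmaCompact S ∧ Q ⊆ S}

/-- The well-ordered set of order type the initial ordinal of the continuum. -/
abbrev Om : Type := (𝔠 : Cardinal.{0}).ord.ToType

theorem mk_BS : #BS = 𝔠 := by simp [BS]

theorem mk_Om : #Om = 𝔠 := by simp [Om]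

theorem mk_Iio (a : Om) : #(Iio a) < 𝔠 := by
  simpa using mk_Iio_lt a

section reg

variable {τ : Cardinal.{0}} (hc : 𝔠 = Order.succ τ)

include hc

theorem tau_inf : ℵ₀ ≤ τ := by
  have h1 : ℵ₀ < 𝔠 := aleph0_lt_continuum
  rw [hc] at h1
  exact Order.lt_succ_iff.1 h1

theorem bdd (S : Set Om) (hS : #S < 𝔠) : ∃ a, ∀ b ∈ S, b < a := by
  by_contra hcon
  push Not at hcon
  have h1 : IsCofinal S := fun a => hcon a
  have h2 := Order.cof_le h1
  rw [Ordinal.cof_toType] at h2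
  have h3 : (𝔠 : Cardinal.{0}).IsRegular := by
    rw [hc]; exact isRegular_succ (tau_inf hc)
  rw [h3.cof_ord] at h2
  exact absurd h2 (not_le.2 hS)

theorem lt_of_le_tau {κ : Cardinal.{0}} (h : κ ≤ τ) : κ < 𝔠 := by
  rw [hc]; exact Order.lt_succ_of_le h

theorem le_tau {κ : Cardinal.{0}} (h : κ < 𝔠) : κ ≤ τ := by
  rw [hc] at h
  exact Order.lt_succ_iff.1 h

theorem exists_gt' (a : Om) : ∃ b, a < b := by
  obtain ⟨b, hb⟩ := bdd hc {a} (by
    rw [mk_singleton]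
    exact lt_of_le_tau hc (one_le_aleph0.trans (tau_inf hc)))
  exact ⟨b, hb a rfl⟩

theorem exists_unb : ∃ F : Set (Om → Om), UnbFam F := by
  refine ⟨univ, fun h => ?_⟩
  choose s hs using exists_gt' hc
  exact ⟨fun α => s (h α), mem_univ _, fun γ => ⟨s γ, hs γ, hs _⟩⟩

theorem tau_le_bb : τ ≤ bb Om := by
  apply le_csInf
  · obtain ⟨F, hF⟩ := exists_unb hc
    exact ⟨_, F, hF, rfl⟩
  · rintro _ ⟨F, hF, rfl⟩
    by_contra hlt
    rw [not_le] at hlt
    have h1 : ∀ α : Om, ∃ a, ∀ f ∈ F, f α < a := by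
      intro α
      obtain ⟨a, ha⟩ := bdd hc ((fun f : Om → Om => f α) '' F)
        (mk_image_le.trans_lt (lt_of_le_tau hc hlt.le))
      exact ⟨a, fun f hf => ha _ ⟨f, hf, rfl⟩⟩
    choose h hh using h1
    obtain ⟨f, hf, hf2⟩ := hF h
    obtain ⟨α, -, hα⟩ := hf2 (Classical.choice (by
      rw [← mk_ne_zero_iff, mk_Om]; exact continuum_ne_zero))
    exact absurd (hh α f hf) (not_lt.2 hα.le)

theorem main (I J : Set (Set BS)) (hI : Lus Om I) (hJ : Lus Om J) (hJ0 : ∅ ∈ J) :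
    bNe I ≤ dNe J := by
  classical
  have ρ : BS ≃ Om := (Cardinal.eq.1 (by rw [mk_BS, mk_Om])).some
  obtain ⟨T, hTc⟩ : ∃ T : Type, #T = τ := ⟨τ.out, mk_out τ⟩
  have hTne : Nonempty T := by
    rw [← mk_ne_zero_iff, hTc]
    exact (aleph0_pos.trans_le (tau_inf hc)).ne'
  have hemb : ∀ a : Om, Nonempty (Iio a ↪ T) := by
    intro a
    rw [← Cardinal.le_def, hTc]
    exact le_tau hc (mk_Iio a)
  have em : ∀ a : Om, Iio a ↪ T := fun a => (hemb a).some
  let e : Om → T → Om := fun a t => if h : ∃ b : Iio a, em a b = t then h.choose else a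
  have he : ∀ a b, b < a → ∃ t, e a t = b := by
    intro a b hb
    refine ⟨em a ⟨b, hb⟩, ?_⟩
    have h : ∃ b' : Iio a, em a b' = em a ⟨b, hb⟩ := ⟨_, rfl⟩
    have h2 : h.choose = ⟨b, hb⟩ := (em a).injective h.choose_spec
    simp only [e, dif_pos h, h2]
  have hT : ∀ b : T → Om, ∃ a, ∀ t, b t < a := by
    intro b
    obtain ⟨a, ha⟩ := bdd hc (range b) (mk_range_le.trans_lt (lt_of_le_tau hc hTc.le))
    exact ⟨a, fun t => ha _ ⟨t, rfl⟩⟩
  have hΩ : ∀ (i : Om) (f : Om → Om), ∃ a, ∀ j < i, f j < a := by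
    intro i f
    obtain ⟨a, ha⟩ := bdd hc (f '' Iio i) (mk_image_le.trans_lt (mk_Iio i))
    exact ⟨a, fun j hj => ha _ ⟨j, hj, rfl⟩⟩
  have heq : Nonempty (Om ≃ Om × T) := by
    rw [← Cardinal.eq, mk_prod, lift_id, lift_id, mk_Om, hTc, mul_eq_left aleph0_le_continuum
      (lt_of_le_tau hc le_rfl).le (aleph0_pos.trans_le (tau_inf hc)).ne']
  obtain ⟨eq⟩ := heq
  have hcol : ∀ t a, ∃ b, a < b ∧ (eq b).2 = t := by
    intro t a
    by_contra hcon
    push Not at hcon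
    obtain ⟨a', ha'⟩ := exists_gt' hc a
    have h1 : #Om ≤ #(Iio a') := by
      refine mk_le_of_injective (f := fun b : Om => (⟨eq.symm (b, t), ?_⟩ : Iio a')) ?_
      · have h2 : ¬ a < eq.symm (b, t) := fun h => hcon _ h (by simp)
        exact (not_lt.1 h2).trans_lt ha'
      · intro b b' h
        have h2 := congrArg Subtype.val h
        simpa using h2
    rw [mk_Om] at h1
    exact absurd (mk_Iio a') (not_lt.2 h1)
  refine (bNe_le ρ e he hT (exists_unb hc) ?_ ((tau_inf hc).trans (tau_le_bb hc)) I hI).trans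
    (le_dNe ρ e he hT hΩ (exists_gt' hc) (fun b => (eq b).2) hcol J hJ hJ0)
  rw [hTc]
  exact tau_le_bb hc

omit hc in
theorem lus_empty : Lus Om {∅} := by
  obtain ⟨ρ⟩ := Cardinal.eq.1 (mk_Om.trans mk_BS.symm)
  refine ⟨ρ, ρ.injective, ?_⟩
  intro Q hQ
  rw [mem_singleton_iff] at hQ
  subst hQ
  exact ⟨ρ.symm 0, fun _ _ => Set.notMem_empty _⟩

/-- Luzin sequences. -/
theorem lus_of (I : Set (Set BS)) (hs : ∀ x, {x} ∈ I)
    (hB : ∃ B : Om → Set BS, (∀ a, B a ∈ I) ∧ ∀ Q ∈ I, ∃ a, Q ⊆ B a) (hcov : 𝔠 ≤ cov I) :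
    Lus Om I := by
  obtain ⟨B, hB1, hB2⟩ := hB
  obtain ⟨p, hp⟩ := exists_rec (Ω := Om) (Y := BS)
    (fun α S y => y ∉ S ∧ ∀ β ≤ α, y ∉ B β) (by
      intro α p
      by_contra hcon
      push Not at hcon
      obtain ⟨a', ha'⟩ := exists_gt' hc α
      let 𝒬 : Set (Set BS) := (fun β => {p β}) '' Iio α ∪ B '' Iio a'
      have h1 : cov I ≤ #𝒬 := by
        refine csInf_le' ⟨𝒬, ?_, ?_, rfl⟩
        · rintro _ (⟨β, -, rfl⟩ | ⟨β, -, rfl⟩)
          · exact hs _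
          · exact hB1 _
        · apply Set.eq_univ_of_forall
          intro y
          by_cases hy : y ∈ p '' Iio α
          · obtain ⟨β, hβ, rfl⟩ := hy
            exact ⟨{p β}, Or.inl ⟨β, hβ, rfl⟩, rfl⟩
          · obtain ⟨β, hβ, hyβ⟩ := hcon y hy
            exact ⟨B β, Or.inr ⟨β, hβ.trans_lt ha', rfl⟩, hyβ⟩
      have h2 : #𝒬 < 𝔠 := by
        refine (mk_union_le _ _).trans_lt (add_lt_of_lt aleph0_le_continuum ?_ ?_)
        · exact mk_image_le.trans_lt (mk_Iio _)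
        · exact mk_image_le.trans_lt (mk_Iio _)
      exact absurd (hcov.trans h1) (not_le.2 h2))
  refine ⟨p, ?_, ?_⟩
  · intro a b hab
    rcases lt_trichotomy a b with h | h | h
    · exact absurd ⟨a, h, hab⟩ (hp b).1
    · exact h
    · exact absurd ⟨b, h, hab.symm⟩ (hp a).1
  · intro Q hQ
    obtain ⟨a, ha⟩ := hB2 Q hQ
    exact ⟨a, fun α hα h => (hp α).2 a hα.le (ha h)⟩

end reg

theorem mk_measurable : #{S : Set BS // MeasurableSet S} ≤ 𝔠 := by
  obtain ⟨s, hs, h⟩ := (inferInstance : MeasurableSpace.CountablyGenerated BS).isCountablyGenerated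
  have h1 : #s ≤ 𝔠 := (Cardinal.le_aleph0_iff_set_countable.2 hs).trans aleph0_le_continuum
  have h2 := MeasurableSpace.cardinal_measurableSet_le_continuum h1
  rw [← h] at h2
  exact h2

theorem base_of (I : Set (Set BS)) (h0 : ∅ ∈ I)
    (h : ∀ Q ∈ I, ∃ S ∈ I, MeasurableSet S ∧ Q ⊆ S) :
    ∃ B : Om → Set BS, (∀ a, B a ∈ I ∧ MeasurableSet (B a)) ∧ ∀ Q ∈ I, ∃ a, Q ⊆ B a := by
  classical
  have h1 : Nonempty ({S : Set BS // MeasurableSet S} ↪ Om) := by
    rw [← Cardinal.le_def, mk_Om]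
    exact mk_measurable
  obtain ⟨em⟩ := h1
  refine ⟨fun a => if h : ∃ S : {S : Set BS // MeasurableSet S}, em S = a ∧ S.1 ∈ I then
    h.choose.1 else ∅, ?_, ?_⟩
  · intro a
    by_cases h : ∃ S : {S : Set BS // MeasurableSet S}, em S = a ∧ S.1 ∈ I
    · simp only [dif_pos h]
      exact ⟨h.choose_spec.2, h.choose.2⟩
    · simp only [dif_neg h]
      exact ⟨h0, MeasurableSet.empty⟩
  · intro Q hQ
    obtain ⟨S, hS, hm, hQS⟩ := h Q hQ
    refine ⟨em ⟨S, hm⟩, ?_⟩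
    have h : ∃ S' : {S : Set BS // MeasurableSet S}, em S' = em ⟨S, hm⟩ ∧ S'.1 ∈ I := ⟨⟨S, hm⟩, rfl, hS⟩
    have h2 : h.choose = ⟨S, hm⟩ := em.injective h.choose_spec.1
    simp only [dif_pos h, h2]
    exact hQS

end Pool.Agent.K4H92.HD
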