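import Pool.Agent.K4H92.HD.Ideals

/-!
# The bounding number of slalom capture modulo meagre sets
-/

set_option autoImplicit false

open Cardinal Filter Topology

namespace Pool.Agent.K4H92.HD

/-- Slaloms: `|s n| ≤ n` for all `n`. -/
def IsSlalom (s : ℕ → Finset ℕ) : Prop := ∀ n, (s n).card ≤ n

/-- `y ∈* s`: `y k ∈ s k` for all but finitely many `k`. -/
def Capt (y : BS) (s : ℕ → Finset ℕ) : Prop := ∀ᶠ k in atTop, y k ∈ s k

/-- `𝔟(∈*_I)`: the least size of a set `A` of functions from Baire space to itself such that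
there is no function `g` from Baire space to the slaloms with `f ∈*_I g` for all `f ∈ A`. -/
noncomputable def bIn (I : Set (Set BS)) : Cardinal.{0} :=
  sInf {κ | ∃ A : Set (BS → BS), (¬ ∃ g : BS → ℕ → Finset ℕ, (∀ x, IsSlalom (g x)) ∧
    ∀ f ∈ A, {x | ¬ Capt (f x) (g x)} ∈ I) ∧ #A = κ}

theorem dichotomy (hc : (𝔠 : Cardinal.{0}) = Order.succ ℵ₁)
    (hnon : ∀ S : Set BS, #S ≤ ℵ₁ → IsMeagre S) (Ω : Type) (hΩ : #Ω = ℵ₁) (t : Ω → BS)
    (ht : ∀ s : ℕ → Finset ℕ, IsSlalom s → {j | Capt (t j) s}.Countable) :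
    bIn meagreSets ≤ Order.succ ℵ₁ ∨ ∃ X : Om → Set BS, (∀ α, IsMeagre (X α)) ∧
      ∀ x, {α | x ∉ X α}.Countable := by
  classical
  obtain ⟨ρ⟩ := Cardinal.eq.1 (mk_BS.trans mk_Om.symm)
  have hemb : ∀ a : Om, Nonempty (Set.Iio a ↪ Ω) := by
    intro a
    rw [← Cardinal.le_def, hΩ]
    exact le_tau hc (mk_Iio a)
  have em : ∀ a : Om, Set.Iio a ↪ Ω := fun a => (hemb a).some
  let f : Om → BS → BS := fun ξ x => if h : ξ < ρ x then t (em (ρ x) ⟨ξ, h⟩) else 0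
  by_cases hA : ∃ g : BS → ℕ → Finset ℕ, (∀ x, IsSlalom (g x)) ∧
    ∀ u ∈ Set.range f, {x | ¬ Capt (u x) (g x)} ∈ meagreSets
  · right
    obtain ⟨g, hg, hgm⟩ := hA
    refine ⟨fun ξ => {x | ¬ Capt (f ξ x) (g x)} ∪ {x | ρ x ≤ ξ}, ?_, ?_⟩
    · intro ξ
      have h1 : IsMeagre {x | ¬ Capt (f ξ x) (g x)} := hgm _ ⟨ξ, rfl⟩
      refine h1.union (hnon _ ?_)
      obtain ⟨ξ', hξ'⟩ := exists_gt' hc ξ
      refine le_tau hc (lt_of_le_of_lt ?_ (mk_Iio ξ'))
      refine mk_le_of_injective (f := fun x : {x | ρ x ≤ ξ} => (⟨ρ x.1, lt_of_le_of_lt x.2 hξ'⟩ : Set.Iio ξ')) ?_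
      intro a b hab
      have h := congrArg Subtype.val hab
      exact Subtype.ext (ρ.injective h)
    · intro x
      have h2 : {α | x ∉ {x | ¬ Capt (f α x) (g x)} ∪ {x | ρ x ≤ α}} ⊆
          Subtype.val '' ((em (ρ x)) ⁻¹' {j | Capt (t j) (g x)}) := by
        intro α hα
        simp only [Set.mem_ofPred_eq, Set.mem_union, not_or, not_not, not_le] at hα
        obtain ⟨h3, h4⟩ := hα
        refine ⟨⟨α, h4⟩, ?_, rfl⟩
        change Capt (t (em (ρ x) ⟨α, h4⟩)) (g x)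
        simpa only [f, dif_pos h4] using h3
      exact (((ht (g x) (hg x)).preimage (em (ρ x)).injective).image _).mono h2
  · left
    refine (csInf_le' ⟨Set.range f, hA, rfl⟩ : bIn meagreSets ≤ _).trans ?_
    rw [← hc, ← mk_Om]
    exact mk_range_le

end Pool.Agent.K4H92.HD
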