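import Pool.Agent.K4H92.HD.Ideals

/-!
# Higher dimensional bounding and dominating numbers for `≠*`: `𝔠 = τ⁺ = 2^τ`
-/

set_option autoImplicit false

open Cardinal Set Filter

namespace Pool.Agent.K4H92.HD.Succ

open Pool.Agent.K4H92.HD

variable {τ : Cardinal.{0}} (hc : (𝔠 : Cardinal.{0}) = Order.succ τ)

include hc

theorem exists_enum (T : Type) (hT : #T = τ) :
    ∃ e : Om → T → Om, ∀ a b, b < a → ∃ t, e a t = b := by
  classical
  have hemb : ∀ a : Om, Nonempty (Iio a ↪ T) := by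
    intro a
    rw [← Cardinal.le_def, hT]
    exact le_tau hc (mk_Iio a)
  have em : ∀ a : Om, Iio a ↪ T := fun a => (hemb a).some
  refine ⟨fun a t => if h : ∃ b : Iio a, em a b = t then h.choose else a, ?_⟩
  intro a b hb
  refine ⟨em a ⟨b, hb⟩, ?_⟩
  have h : ∃ b' : Iio a, em a b' = em a ⟨b, hb⟩ := ⟨_, rfl⟩
  have h2 : h.choose = ⟨b, hb⟩ := (em a).injective h.choose_spec
  simp only [dif_pos h, h2]

theorem exists_guess (h2 : (2 : Cardinal.{0}) ^ τ = 𝔠) (T : Type) (hT : #T = τ) (Z : Type)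
    [Nonempty Z] (hZ : #Z ≤ 𝔠) :
    ∃ Y : T → Om → Z, ∀ Ψ : T → Z, ∃ a, ∀ α, a < α → ∃ β, Y β α = Ψ β := by
  classical
  obtain ⟨e, he⟩ := exists_enum hc T hT
  have h1 : #(T → Z) ≤ #Om := by
    rw [mk_Om, mk_arrow, lift_id, lift_id, hT]
    calc #Z ^ τ ≤ 𝔠 ^ τ := Cardinal.power_le_power_right hZ
      _ = (2 ^ τ) ^ τ := by rw [h2]
      _ = 2 ^ (τ * τ) := power_mul.symm
      _ = 2 ^ τ := by rw [mul_eq_self (tau_inf hc)]
      _ = 𝔠 := h2
      _ ≤ 𝔠 := le_rfl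
  obtain ⟨em⟩ := (Cardinal.le_def _ _).1 h1
  refine ⟨fun β α => Function.invFun em (e α β) β, fun Ψ => ⟨em Ψ, fun α hα => ?_⟩⟩
  obtain ⟨β, hβ⟩ := he α (em Ψ) hα
  refine ⟨β, ?_⟩
  change Function.invFun em (e α β) β = Ψ β
  rw [hβ, Function.leftInverse_invFun em.injective Ψ]

omit hc in
theorem exists_points {I : Set (Set BS)} (hI : Good I) (P : Type) (hP : #P ≤ 𝔠) :
    ∃ (B : Om → Set BS) (x : Om × P → BS), Function.Injective x ∧ (∀ Q ∈ I, ∃ y, Q ⊆ B y) ∧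
      ∀ y p, x (y, p) ∉ B y := by
  classical
  obtain ⟨B, hB1, hB2⟩ := base_of I hI.empty hI.base
  have heq : Nonempty (Om ≃ Om × Om) := by
    rw [← Cardinal.eq, mk_prod, lift_id, mk_Om, mul_eq_self aleph0_le_continuum]
  obtain ⟨π⟩ := heq
  obtain ⟨em⟩ : Nonempty (P ↪ Om) := by rw [← Cardinal.le_def, mk_Om]; exact hP
  obtain ⟨p, hp⟩ := exists_rec (Ω := Om) (Y := BS)
    (fun α S y => y ∉ S ∧ y ∉ B (π α).1) (by
      intro α p
      by_contra hcon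
      push Not at hcon
      have h1 : (B (π α).1)ᶜ ⊆ p '' Set.Iio α := by
        intro y hy
        by_contra hy2
        exact hy (hcon y hy2)
      have h2 := (mk_le_mk_of_subset h1).trans mk_image_le
      rw [mk_compl hI (hB1 _).1 (hB1 _).2] at h2
      exact absurd (mk_Iio α) (not_lt.2 h2))
  have hinj : Function.Injective p := by
    intro a b hab
    rcases lt_trichotomy a b with h | h | h
    · exact absurd ⟨a, h, hab⟩ (hp b).1
    · exact h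
    · exact absurd ⟨b, h, hab.symm⟩ (hp a).1
  refine ⟨B, fun u => p (π.symm (u.1, em u.2)), ?_, hB2, ?_⟩
  · rintro ⟨y, a⟩ ⟨y', a'⟩ h
    have h1 := π.symm.injective (hinj h)
    have h3 := (Prod.ext_iff.1 h1).1
    have h4 := em.injective (Prod.ext_iff.1 h1).2
    exact Prod.ext h3 h4
  · intro y a
    have := (hp (π.symm (y, em a))).2
    simpa using this

theorem case_one (h2 : (2 : Cardinal.{0}) ^ τ = 𝔠) {I : Set (Set BS)} (hI : Good I)
    {D : Set (BS → BS)} (hD : ∀ f : BS → BS, ∃ g ∈ D, Bad f g ∈ ({∅} : Set (Set BS)))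
    (T : Type) (hT : #T = τ)
    (hsm : ∀ M : D → Om → T, ∃ col : Om → T, ∀ g, ∃ z, col z = M g z) : bNe I ≤ #D := by
  classical
  obtain ⟨ρ⟩ := Cardinal.eq.1 (mk_BS.trans mk_Om.symm)
  obtain ⟨π⟩ : Nonempty (BS ≃ Om × Om) := by
    rw [← Cardinal.eq, mk_prod, lift_id, mk_Om, mul_eq_self aleph0_le_continuum, mk_BS]
  obtain ⟨e, he⟩ := exists_enum hc T hT
  have hOm : Nonempty Om := ⟨ρ 0⟩
  obtain ⟨Y, hY⟩ := exists_guess hc h2 T hT Om mk_Om.le
  obtain ⟨B, x, hx, hB, hxB⟩ := exists_points hI (BS × T) (by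
    rw [mk_prod, lift_id, lift_id, mk_BS, hT]
    exact (mul_le_mul' le_rfl (lt_of_le_tau hc le_rfl).le).trans
      (mul_eq_self aleph0_le_continuum).le)
  let A : D → BS → BS := fun g =>
    Function.extend x (fun u => ρ.symm (Y u.2.2 (ρ (g.1 u.2.1)))) (fun _ => 0)
  refine (csInf_le' ⟨range A, ?_, rfl⟩ : bNe I ≤ _).trans mk_range_le
  rintro ⟨u, hu⟩
  have h1 : ∀ g : D, ∃ y, ∀ a β, Y β (ρ (g.1 a)) ≠ ρ (u (x (y, a, β))) := by
    intro g
    obtain ⟨y, hy⟩ := hB _ (hu (A g) ⟨g, rfl⟩)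
    refine ⟨y, fun a β heq => hxB y (a, β) (hy ?_)⟩
    change ¬ EvDiff _ _
    have : A g (x (y, a, β)) = u (x (y, a, β)) := by
      simp only [A]
      rw [hx.extend_apply]
      change ρ.symm (Y β (ρ (g.1 a))) = _
      rw [heq, Equiv.symm_apply_apply]
    rw [this]
    exact not_evDiff_self _
  choose y hy using h1
  have h3 : ∀ (y' : Om) (a : BS), ∃ c, ∀ α, c < α → ∃ β, Y β α = ρ (u (x (y', a, β))) :=
    fun y' a => hY _
  choose c hc' using h3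
  have h4 : ∀ (g : D) a, ρ (g.1 a) ≤ c (y g) a := by
    intro g a
    by_contra h
    obtain ⟨β, hβ⟩ := hc' (y g) a _ (not_le.1 h)
    exact hy g a β hβ
  choose s hs using exists_gt' hc
  have h5 : ∀ (g : D) (z : Om), ∃ t, e (s (c (y g) (π.symm (y g, z)))) t =
      ρ (g.1 (π.symm (y g, z))) := fun g z => he _ _ ((h4 g _).trans_lt (hs _))
  choose M hM using h5
  obtain ⟨col, hcol⟩ := hsm M
  obtain ⟨g, hg, hbad⟩ := hD (fun a => ρ.symm (e (s (c (π a).1 a)) (col (π a).2)))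
  rw [mem_singleton_iff, eq_empty_iff_forall_notMem] at hbad
  obtain ⟨z, hz⟩ := hcol ⟨g, hg⟩
  apply hbad (π.symm (y ⟨g, hg⟩, z))
  change ¬ EvDiff _ _
  have : ρ.symm (e (s (c (π (π.symm (y ⟨g, hg⟩, z))).1 (π.symm (y ⟨g, hg⟩, z))))
      (col (π (π.symm (y ⟨g, hg⟩, z))).2)) = g (π.symm (y ⟨g, hg⟩, z)) := by
    rw [Equiv.apply_symm_apply]
    change ρ.symm (e (s (c (y ⟨g, hg⟩) (π.symm (y ⟨g, hg⟩, z)))) (col z)) = _
    rw [hz, hM, Equiv.symm_apply_apply]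
  change ¬ EvDiff (ρ.symm (e (s (c (π (π.symm (y ⟨g, hg⟩, z))).1 (π.symm (y ⟨g, hg⟩, z))))
      (col (π (π.symm (y ⟨g, hg⟩, z))).2))) _
  rw [this]
  exact not_evDiff_self _

theorem case_two (h2 : (2 : Cardinal.{0}) ^ τ = 𝔠) {I : Set (Set BS)} (hI : Good I)
    {ι : Type} (T : Type) (hT : #T = τ) (M : ι → Om → T)
    (hM : ∀ col : Om → T, ∃ g, ∀ z, col z ≠ M g z) : bNe I ≤ #ι := by
  classical
  obtain ⟨ρ⟩ := Cardinal.eq.1 (mk_BS.trans mk_Om.symm)
  have hT' : #T ≤ 𝔠 := hT.le.trans (lt_of_le_tau hc le_rfl).le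
  have hTne : Nonempty T := by
    rw [← mk_ne_zero_iff, hT]
    exact (aleph0_pos.trans_le (tau_inf hc)).ne'
  have hOm : Nonempty Om := ⟨ρ 0⟩
  obtain ⟨π⟩ : Nonempty (Om ≃ Om × T) := by
    rw [← Cardinal.eq, mk_prod, lift_id, lift_id, mk_Om, mul_eq_left aleph0_le_continuum hT'
      (mk_ne_zero_iff.2 hTne)]
  -- functions which dominate everywhere
  obtain ⟨Y, hY⟩ := exists_guess hc h2 T hT T hT'
  choose a ha using hY
  choose s hs using exists_gt' hc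
  let f : ι → Om → Om := fun m x => s (a (fun β => M m (π.symm (x, β))))
  have hf : ∀ h : Om → Om, ∃ m, ∀ x, h x < f m x := by
    intro h
    obtain ⟨m, hm⟩ := hM (fun z => Y (π z).2 (h (π z).1))
    refine ⟨m, fun x => lt_of_le_of_lt ?_ (hs _)⟩
    by_contra hlt
    obtain ⟨β, hβ⟩ := ha (fun β => M m (π.symm (x, β))) (h x) (not_le.1 hlt)
    apply hm (π.symm (x, β))
    simpa using hβ
  -- the unbounded family
  obtain ⟨Z, hZ⟩ := exists_guess hc h2 T hT Om mk_Om.le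
  obtain ⟨B, x, hx, hB, hxB⟩ := exists_points hI T hT'
  let A : ι → BS → BS := fun m =>
    Function.extend x (fun u => ρ.symm (Z u.2 (f m u.1))) (fun _ => 0)
  refine (csInf_le' ⟨range A, ?_, rfl⟩ : bNe I ≤ _).trans mk_range_le
  rintro ⟨u, hu⟩
  choose c hc' using fun y : Om => hZ (fun β => ρ (u (x (y, β))))
  obtain ⟨m, hm⟩ := hf c
  obtain ⟨y, hy⟩ := hB _ (hu (A m) ⟨m, rfl⟩)
  obtain ⟨β, hβ⟩ := hc' y (f m y) (hm y)
  apply hxB y β
  apply hy
  change ¬ EvDiff _ _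
  have : A m (x (y, β)) = u (x (y, β)) := by
    simp only [A]
    rw [hx.extend_apply]
    change ρ.symm (Z β (f m y)) = _
    rw [hβ, Equiv.symm_apply_apply]
  rw [this]
  exact not_evDiff_self _

theorem main (h2 : (2 : Cardinal.{0}) ^ τ = 𝔠) {I : Set (Set BS)} (hI : Good I) :
    bNe I ≤ dNe {∅} := by
  classical
  apply le_csInf
  · refine ⟨_, Set.univ, fun f => ⟨fun x k => f x k + 1, Set.mem_univ _, ?_⟩, rfl⟩
    rw [Set.mem_singleton_iff]
    ext x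
    simp [Bad, EvDiff]
  · rintro _ ⟨D, hD, rfl⟩
    obtain ⟨T, hT⟩ : ∃ T : Type, #T = τ := ⟨τ.out, mk_out τ⟩
    by_cases hsm : ∀ M : D → Om → T, ∃ col : Om → T, ∀ g, ∃ z, col z = M g z
    · exact case_one hc h2 hI hD T hT hsm
    · push Not at hsm
      obtain ⟨M, hM⟩ := hsm
      exact case_two hc h2 hI T hT M hM

end Pool.Agent.K4H92.HD.Succ
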