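import Pool.Agent.K4H92.HD.Ideals

/-!
# Higher dimensional bounding and dominating numbers for `≠*`: `2^{ℵ₁} = 𝔠 = ℵ₂`
-/

set_option autoImplicit false

open Cardinal Set Filter

namespace Pool.Agent.K4H92.HD

theorem exists_enum (hc : (𝔠 : Cardinal.{0}) = Order.succ ℵ₁) (T : Type) (hT : #T = ℵ₁) :
    ∃ e : Om → T → Om, ∀ a b, b < a → ∃ t, e a t = b := by
  classical
  have hemb : ∀ a : Om, Nonempty (Iio a ↪ T) := by
    intro a
    rw [← Cardinal.le_def, hT]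
    exact le_tau hc (mk_Iio a)
  have em : ∀ a : Om, Iio a ↪ T := fun a => (hemb a).some
  refine ⟨fun a t => if h : ∃ b : Iio a, em a b = t then h.choose else a, ?_⟩
  intro a b hb
  refine ⟨em a ⟨b, hb⟩, ?_⟩
  have h : ∃ b' : Iio a, em a b' = em a ⟨b, hb⟩ := ⟨_, rfl⟩
  have h2 : h.choose = ⟨b, hb⟩ := (em a).injective h.choose_spec
  simp only [dif_pos h, h2]

theorem exists_guess (hc : (𝔠 : Cardinal.{0}) = Order.succ ℵ₁)
    (h2 : (2 : Cardinal.{0}) ^ (ℵ₁ : Cardinal.{0}) = 𝔠) (T : Type) (hT : #T = ℵ₁) (Z : Type)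
    [Nonempty Z] (hZ : #Z ≤ 𝔠) :
    ∃ Y : T → Om → Z, ∀ Ψ : T → Z, ∃ a, ∀ α, a < α → ∃ β, Y β α = Ψ β := by
  classical
  obtain ⟨e, he⟩ := exists_enum hc T hT
  have h1 : #(T → Z) ≤ #Om := by
    rw [mk_Om, mk_arrow, lift_id, lift_id, hT]
    calc #Z ^ (ℵ₁ : Cardinal.{0}) ≤ 𝔠 ^ (ℵ₁ : Cardinal.{0}) := Cardinal.power_le_power_right hZ
      _ = (2 ^ (ℵ₁ : Cardinal.{0})) ^ (ℵ₁ : Cardinal.{0}) := by rw [h2]
      _ = 2 ^ ((ℵ₁ : Cardinal.{0}) * ℵ₁) := power_mul.symm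
      _ = 2 ^ (ℵ₁ : Cardinal.{0}) := by rw [mul_eq_self (aleph0_le_aleph 1)]
      _ = 𝔠 := h2
      _ ≤ 𝔠 := le_rfl
  obtain ⟨em⟩ := (Cardinal.le_def _ _).1 h1
  refine ⟨fun β α => Function.invFun em (e α β) β, fun Ψ => ⟨em Ψ, fun α hα => ?_⟩⟩
  obtain ⟨β, hβ⟩ := he α (em Ψ) hα
  refine ⟨β, ?_⟩
  change Function.invFun em (e α β) β = Ψ β
  rw [hβ, Function.leftInverse_invFun em.injective Ψ]

theorem exists_points {I : Set (Set BS)} (hI : Good I) (P : Type) (hP : #P ≤ 𝔠) :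
    ∃ (B : Om → Set BS) (x : Om × P → BS), Function.Injective x ∧ (∀ Q ∈ I, ∃ y, Q ⊆ B y) ∧
      ∀ y p, x (y, p) ∉ B y := by
  classical
  obtain ⟨B, hB1, hB2⟩ := base_of I hI.empty hI.base
  have heq : Nonempty (Om ≃ Om × Om) := by
    rw [← Cardinal.eq, mk_prod, lift_id, mk_Om, mul_eq_self aleph0_le_continuum]
  obtain ⟨π⟩ := heq
  obtain ⟨em⟩ : Nonempty (P ↪ Om) := by rw [← Cardinal.le_def, mk_Om]; exact hP
  obtain ⟨p, hp⟩ := exists_rec (Ω := Om) (Y := BS)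
    (fun α S y => y ∉ S ∧ y ∉ B (π α).1) (by
      intro α p
      by_contra hcon
      push Not at hcon
      have h1 : (B (π α).1)ᶜ ⊆ p '' Set.Iio α := by
        intro y hy
        by_contra hy2
        exact hy (hcon y hy2)
      have h2 := (mk_le_mk_of_subset h1).trans mk_image_le
      rw [mk_compl hI (hB1 _).1 (hB1 _).2] at h2
      exact absurd (mk_Iio α) (not_lt.2 h2))
  have hinj : Function.Injective p := by
    intro a b hab
    rcases lt_trichotomy a b with h | h | h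
    · exact absurd ⟨a, h, hab⟩ (hp b).1
    · exact h
    · exact absurd ⟨b, h, hab.symm⟩ (hp a).1
  refine ⟨B, fun u => p (π.symm (u.1, em u.2)), ?_, hB2, ?_⟩
  · rintro ⟨y, a⟩ ⟨y', a'⟩ h
    have h1 := π.symm.injective (hinj h)
    have h3 := (Prod.ext_iff.1 h1).1
    have h4 := em.injective (Prod.ext_iff.1 h1).2
    exact Prod.ext h3 h4
  · intro y a
    have := (hp (π.symm (y, em a))).2
    simpa using this

theorem case_one (hc : (𝔠 : Cardinal.{0}) = Order.succ ℵ₁)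
    (h2 : (2 : Cardinal.{0}) ^ (ℵ₁ : Cardinal.{0}) = 𝔠) {I : Set (Set BS)} (hI : Good I)
    {D : Set (BS → BS)} (hD : ∀ f : BS → BS, ∃ g ∈ D, Bad f g ∈ ({∅} : Set (Set BS)))
    (T : Type) (hT : #T = ℵ₁)
    (hsm : ∀ M : D → Om → T, ∃ col : Om → T, ∀ g, ∃ z, col z = M g z) : bNe I ≤ #D := by
  classical
  obtain ⟨ρ⟩ := Cardinal.eq.1 (mk_BS.trans mk_Om.symm)
  obtain ⟨π⟩ : Nonempty (BS ≃ Om × Om) := by
    rw [← Cardinal.eq, mk_prod, lift_id, mk_Om, mul_eq_self aleph0_le_continuum, mk_BS]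
  obtain ⟨e, he⟩ := exists_enum hc T hT
  have hOm : Nonempty Om := ⟨ρ 0⟩
  obtain ⟨Y, hY⟩ := exists_guess hc h2 T hT Om mk_Om.le
  obtain ⟨B, x, hx, hB, hxB⟩ := exists_points hI (BS × T) (by
    rw [mk_prod, lift_id, lift_id, mk_BS, hT]
    exact (mul_le_mul' le_rfl (lt_of_le_tau hc le_rfl).le).trans
      (mul_eq_self aleph0_le_continuum).le)
  let A : D → BS → BS := fun g =>
    Function.extend x (fun u => ρ.symm (Y u.2.2 (ρ (g.1 u.2.1)))) (fun _ => 0)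
  refine (csInf_le' ⟨range A, ?_, rfl⟩ : bNe I ≤ _).trans mk_range_le
  rintro ⟨u, hu⟩
  have h1 : ∀ g : D, ∃ y, ∀ a β, Y β (ρ (g.1 a)) ≠ ρ (u (x (y, a, β))) := by
    intro g
    obtain ⟨y, hy⟩ := hB _ (hu (A g) ⟨g, rfl⟩)
    refine ⟨y, fun a β heq => hxB y (a, β) (hy ?_)⟩
    change ¬ EvDiff _ _
    have : A g (x (y, a, β)) = u (x (y, a, β)) := by
      simp only [A]
      rw [hx.extend_apply]
      change ρ.symm (Y β (ρ (g.1 a))) = _
      rw [heq, Equiv.symm_apply_apply]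
    rw [this]
    exact not_evDiff_self _
  choose y hy using h1
  have h3 : ∀ (y' : Om) (a : BS), ∃ c, ∀ α, c < α → ∃ β, Y β α = ρ (u (x (y', a, β))) :=
    fun y' a => hY _
  choose c hc' using h3
  have h4 : ∀ (g : D) a, ρ (g.1 a) ≤ c (y g) a := by
    intro g a
    by_contra h
    obtain ⟨β, hβ⟩ := hc' (y g) a _ (not_le.1 h)
    exact hy g a β hβ
  choose s hs using exists_gt' hc
  have h5 : ∀ (g : D) (z : Om), ∃ t, e (s (c (y g) (π.symm (y g, z)))) t =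
      ρ (g.1 (π.symm (y g, z))) := fun g z => he _ _ ((h4 g _).trans_lt (hs _))
  choose M hM using h5
  obtain ⟨col, hcol⟩ := hsm M
  obtain ⟨g, hg, hbad⟩ := hD (fun a => ρ.symm (e (s (c (π a).1 a)) (col (π a).2)))
  rw [mem_singleton_iff, eq_empty_iff_forall_notMem] at hbad
  obtain ⟨z, hz⟩ := hcol ⟨g, hg⟩
  apply hbad (π.symm (y ⟨g, hg⟩, z))
  change ¬ EvDiff _ _
  have : ρ.symm (e (s (c (π (π.symm (y ⟨g, hg⟩, z))).1 (π.symm (y ⟨g, hg⟩, z))))
      (col (π (π.symm (y ⟨g, hg⟩, z))).2)) = g (π.symm (y ⟨g, hg⟩, z)) := by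
    rw [Equiv.apply_symm_apply]
    change ρ.symm (e (s (c (y ⟨g, hg⟩) (π.symm (y ⟨g, hg⟩, z)))) (col z)) = _
    rw [hz, hM, Equiv.symm_apply_apply]
  change ¬ EvDiff (ρ.symm (e (s (c (π (π.symm (y ⟨g, hg⟩, z))).1 (π.symm (y ⟨g, hg⟩, z))))
      (col (π (π.symm (y ⟨g, hg⟩, z))).2))) _
  rw [this]
  exact not_evDiff_self _

theorem small_set (hc : (𝔠 : Cardinal.{0}) = Order.succ ℵ₁) (T : Type) [LinearOrder T]
    (hT : #T = ℵ₁) (hIic : ∀ t : T, (Iic t).Countable) (eb : Om → Om → T)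
    (heb : ∀ b γ γ', γ < b → γ' < b → eb b γ = eb b γ' → γ = γ') (v : Om → T) :
    ∃ c, ∀ γ, (∀ b, γ < b → eb b γ ≤ v b) → γ < c := by
  classical
  obtain ⟨t, ht⟩ : ∃ t : T, ∀ c, ∃ b, c < b ∧ v b = t := by
    by_contra hcon
    push Not at hcon
    choose c hcc using hcon
    obtain ⟨a, ha⟩ := bdd hc (range c) (mk_range_le.trans_lt (lt_of_le_tau hc hT.le))
    exact hcc (v a) a (ha _ ⟨v a, rfl⟩) rfl
  let S : Set Om := {γ | ∀ b, γ < b → eb b γ ≤ v b}
  by_contra hcon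
  have hS : 𝔠 ≤ #S := by
    by_contra hlt
    obtain ⟨a, ha⟩ := bdd hc S (not_le.1 hlt)
    exact hcon ⟨a, fun γ hγ => ha γ hγ⟩
  obtain ⟨S', hS', hS'c⟩ := le_mk_iff_exists_subset.1 ((lt_of_le_tau hc le_rfl).le.trans hS)
  obtain ⟨b0, hb0⟩ := bdd hc S' (by rw [hS'c]; exact lt_of_le_tau hc le_rfl)
  obtain ⟨b, hb, hbt⟩ := ht b0
  have h1 : #S' ≤ #(Iic t) := by
    refine mk_le_of_injective (f := fun γ : S' => (⟨eb b γ.1, ?_⟩ : Iic t)) ?_
    · rw [← hbt]
      exact hS' γ.2 b ((hb0 _ γ.2).trans hb)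
    · intro γ γ' h
      exact Subtype.ext (heb b _ _ ((hb0 _ γ.2).trans hb) ((hb0 _ γ'.2).trans hb)
        (congrArg Subtype.val h))
  have h3 : #(Iic t) ≤ ℵ₀ := Cardinal.le_aleph0_iff_set_countable.2 (hIic t)
  rw [hS'c] at h1
  exact absurd (h1.trans h3) (not_le.2 aleph0_lt_aleph_one)

theorem case_two (hc : (𝔠 : Cardinal.{0}) = Order.succ ℵ₁)
    (h2 : (2 : Cardinal.{0}) ^ (ℵ₁ : Cardinal.{0}) = 𝔠) {I : Set (Set BS)} (hI : Good I)
    {ι : Type} (hι : ℵ₀ ≤ #ι) (T : Type) [LinearOrder T]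
    (hT : #T = ℵ₁) (hIic : ∀ t : T, (Iic t).Countable) (M : ι → Om → T)
    (hM : ∀ col : Om → T, ∃ g, ∀ z, col z ≠ M g z) : bNe I ≤ #ι := by
  classical
  obtain ⟨ρ⟩ := Cardinal.eq.1 (mk_BS.trans mk_Om.symm)
  have hT' : #T ≤ 𝔠 := hT.le.trans (lt_of_le_tau hc le_rfl).le
  have hTne : Nonempty T := by
    rw [← mk_ne_zero_iff, hT]
    exact (aleph0_pos.trans aleph0_lt_aleph_one).ne'
  obtain ⟨t0⟩ := id hTne
  obtain ⟨π⟩ : Nonempty (Om ≃ BS × T) := by
    rw [← Cardinal.eq, mk_prod, lift_id, lift_id, mk_Om, mk_BS, mul_eq_left aleph0_le_continuum hT'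
      (mk_ne_zero_iff.2 hTne)]
  obtain ⟨e, he⟩ := exists_enum hc T hT
  obtain ⟨Y, hY⟩ := exists_guess hc h2 T hT T hT'
  choose a ha using hY
  choose s hs using exists_gt' hc
  let f : ι → BS → Om := fun m x => s (a (fun β => M m (π.symm (x, β))))
  have hf : ∀ h : BS → Om, ∃ m, ∀ x, h x < f m x := by
    intro h
    obtain ⟨m, hm⟩ := hM (fun z => Y (π z).2 (h (π z).1))
    refine ⟨m, fun x => lt_of_le_of_lt ?_ (hs _)⟩
    by_contra hlt
    obtain ⟨β, hβ⟩ := ha (fun β => M m (π.symm (x, β))) (h x) (not_le.1 hlt)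
    apply hm (π.symm (x, β))
    simpa using hβ
  have hemb : ∀ a : Om, Nonempty (Iio a ↪ T) := by
    intro a
    rw [← Cardinal.le_def, hT]
    exact le_tau hc (mk_Iio a)
  have em : ∀ a : Om, Iio a ↪ T := fun a => (hemb a).some
  let eb : Om → Om → T := fun b γ => if h : γ < b then em b ⟨γ, h⟩ else t0
  have heb : ∀ b γ γ', γ < b → γ' < b → eb b γ = eb b γ' → γ = γ' := by
    intro b γ γ' h h' heq
    simp only [eb, dif_pos h, dif_pos h'] at heq
    exact congrArg Subtype.val ((em b).injective heq)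
  obtain ⟨B, x, hx, hB, hxB⟩ := exists_points hI (BS × Om) (by
    rw [mk_prod, lift_id, lift_id, mk_BS, mk_Om]
    exact (mul_eq_self aleph0_le_continuum).le)
  let k : ι → BS → T := fun m =>
    Function.extend x (fun u => eb u.2.2 (f m u.2.1)) (fun _ => t0)
  have hk : ∀ u : BS → T, ∃ m, {w | u w < k m w} ∉ I := by
    intro u
    by_contra hcon
    push Not at hcon
    have h1 : ∀ m, ∃ y, ∀ a b, k m (x (y, a, b)) ≤ u (x (y, a, b)) := by
      intro m
      obtain ⟨y, hy⟩ := hB _ (hcon m)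
      exact ⟨y, fun a b => not_lt.1 fun h => hxB y (a, b) (hy h)⟩
    choose y hy using h1
    have h3 : ∀ (y' : Om) (a : BS), ∃ c, ∀ γ,
        (∀ b, γ < b → eb b γ ≤ u (x (y', a, b))) → γ < c := fun y' a =>
      small_set hc T hT hIic eb heb (fun b => u (x (y', a, b)))
    choose c hc' using h3
    obtain ⟨m, hm⟩ := hf (fun a => c (ρ a) a)
    have h5 : f m (ρ.symm (y m)) < c (y m) (ρ.symm (y m)) := by
      apply hc'
      intro b hb
      have h6 := hy m (ρ.symm (y m)) b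
      simp only [k] at h6
      rw [hx.extend_apply] at h6
      exact h6
    have h6 := hm (ρ.symm (y m))
    simp only [Equiv.apply_symm_apply] at h6
    exact absurd h5 (not_lt.2 h6.le)
  have hen : ∀ ζ : T, ∃ E : ℕ → T, ∀ t, t < ζ → ∃ i, E i = t := by
    intro ζ
    obtain ⟨E, hE⟩ := (hIic ζ).exists_eq_range ⟨ζ, le_rfl⟩
    refine ⟨E, fun t ht => ?_⟩
    have h1 : t ∈ range E := by rw [← hE]; exact ht.le
    exact h1
  choose E hE using hen
  let A : ι × ι × ℕ → BS → BS := fun u w => ρ.symm (e (f u.1 w) (E (k u.2.1 w) u.2.2))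
  refine (csInf_le' ⟨range A, ?_, rfl⟩ : bNe I ≤ _).trans ?_
  · rintro ⟨u, hu⟩
    obtain ⟨m, hm⟩ := hf (fun w => ρ (u w))
    have h1 : ∀ w, ∃ t, e (f m w) t = ρ (u w) := fun w => he _ _ (hm w)
    choose t ht using h1
    obtain ⟨m', hm'⟩ := hk t
    apply hm'
    refine hI.mono _ (hI.union (fun i => Bad (A (m, m', i)) u) (fun i => hu _ ⟨_, rfl⟩)) _ ?_
    intro w hw
    obtain ⟨i, hi⟩ := hE (k m' w) (t w) hw
    refine mem_iUnion.2 ⟨i, ?_⟩
    change ¬ EvDiff _ _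
    have : A (m, m', i) w = u w := by
      simp only [A]
      rw [hi, ht, Equiv.symm_apply_apply]
    rw [this]
    exact not_evDiff_self _
  · refine mk_range_le.trans ?_
    simp only [mk_prod, lift_id, mk_nat]
    refine (mul_le_mul' le_rfl (mul_le_mul' le_rfl hι)).trans ?_
    rw [mul_eq_self hι, mul_eq_self hι]

theorem two_le (hc : (𝔠 : Cardinal.{0}) = Order.succ ℵ₁)
    (h2 : (2 : Cardinal.{0}) ^ (ℵ₁ : Cardinal.{0}) = 𝔠) {I : Set (Set BS)} (hI : Good I) :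
    bNe I ≤ dNe {∅} := by
  classical
  apply le_csInf
  · refine ⟨_, Set.univ, fun f => ⟨fun x k => f x k + 1, Set.mem_univ _, ?_⟩, rfl⟩
    rw [Set.mem_singleton_iff]
    ext x
    simp [Bad, EvDiff]
  · rintro _ ⟨D, hD, rfl⟩
    let T : Type := (ℵ₁ : Cardinal.{0}).ord.ToType
    have hT : #T = ℵ₁ := by simp [T]
    have hIic : ∀ t : T, (Iic t).Countable := by
      intro t
      have h1 := mk_Iio_lt t (by simp [T])
      have h2 : #(Set.Iio t) < ℵ₁ := h1.trans_eq hT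
      have h3 : (Set.Iio t).Countable := by
        rw [← Cardinal.le_aleph0_iff_set_countable, ← Order.lt_succ_iff, succ_aleph0]
        exact h2
      have h4 : Set.Iic t = insert t (Set.Iio t) := by
        ext b
        simp [le_iff_eq_or_lt]
      rw [h4]
      exact h3.insert t
    by_cases hsm : ∀ M : D → Om → T, ∃ col : Om → T, ∀ g, ∃ z, col z = M g z
    · exact case_one hc h2 hI hD T hT hsm
    · push Not at hsm
      obtain ⟨M, hM⟩ := hsm
      refine case_two hc h2 hI ?_ T hT hIic M hM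
      by_contra hlt
      rw [not_le, lt_aleph0_iff_finite] at hlt
      -- finitely many functions never dominate
      have hfin : Finite D := hlt
      have : Infinite BS := inferInstance
      obtain ⟨em⟩ : Nonempty (D ↪ BS) := by
        rw [← Cardinal.le_def]
        exact (lt_aleph0_of_finite _).le.trans (aleph0_le_mk BS)
      obtain ⟨g, hg, hbad⟩ := hD (fun x => if h : ∃ g : D, em g = x then h.choose.1 x else x)
      rw [Set.mem_singleton_iff, Set.eq_empty_iff_forall_notMem] at hbad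
      apply hbad (em ⟨g, hg⟩)
      have h3 : ∃ g' : D, em g' = em ⟨g, hg⟩ := ⟨⟨g, hg⟩, rfl⟩
      have h4 : h3.choose = ⟨g, hg⟩ := em.injective h3.choose_spec
      change ¬ EvDiff _ _
      simp only [dif_pos h3, h4]
      exact not_evDiff_self _

end Pool.Agent.K4H92.HD
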